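import Pool.Agent.ZRI.FinZ
import Pool.Agent.ZRI.F6
import Pool.Agent.ZRI.F7
import Pool.Agent.ZRI.G1
import Pool.Agent.ZRI.G2

/-!
# Linear speed of the infection front in a zero-range environment without healing

For every dimension `d ≥ 3`, rate function and density, `δ = 0`.
-/

open scoped ENNReal Topology
open MeasureTheory Filter

namespace Pool.Agent.Results.MP_ee2e20_pr.LinearSpeed

/-- the density determines the fugacity, so the fugacity in `result` is the only possible one -/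
theorem fugacity_unique {g : ℕ → ℝ} {Γm Γp : ℝ} (hg : ZRI.IsRate g Γm Γp) {φ φ' : ℝ} (hφ : 0 < φ)
    (hφ' : 0 < φ') (h : ZRI.dens g φ = ZRI.dens g φ') : φ = φ' :=
  (ZRI.dens_strictMono hg).injOn hφ hφ' h

/-- Let `d ≥ 3`, let `g` be admissible and let `ρ > 0` be a density, `φ` its fugacity; no healing.
There are `0 < c ≤ C < ∞` such that almost surely on the event that the infection survives the
position `r t` of the front satisfies `c t ≤ r t ≤ C t` for all large `t`; such a front and survival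
event exist, with survival probability `1 - P(no particle at the origin) > 0`. -/
theorem result (d : ℕ) (hd : 3 ≤ d) (g : ℕ → ℝ) (Γm Γp : ℝ) (hg : ZRI.IsRate g Γm Γp) (ρ : ℝ)
    (hρ : 0 < ρ) :
    ∃ φ : ℝ, 0 < φ ∧ ZRI.dens g φ = ρ ∧ ∃ c C : ℝ, 0 < c ∧ 0 < C ∧
      (∃ (P : Measure ℝ) (r : ℝ → ℝ → ℕ) (al : ℝ → Set ℝ), IsProbabilityMeasure P ∧
        ZRI.Front P d g φ 0 r ∧ ZRI.Alive P d g φ 0 r al ∧
        (∀ t, P.real (al t) = 1 - ZRI.m1 g φ 0) ∧ ZRI.m1 g φ 0 < 1) ∧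
      ∀ {Ω : Type*} [MeasurableSpace Ω] (P : Measure Ω) [IsProbabilityMeasure P] (r : ℝ → Ω → ℕ)
        (al : ℝ → Set Ω), ZRI.Front P d g φ 0 r → ZRI.Alive P d g φ 0 r al →
        ∀ᵐ ω ∂P, (∀ t, 0 ≤ t → ω ∈ al t) →
          ∀ᶠ t : ℝ in atTop, c * t ≤ (r t ω : ℝ) ∧ (r t ω : ℝ) ≤ C * t := by
  obtain ⟨φ, hφ, hφρ⟩ := ZRI.exists_fug hg hρ
  obtain ⟨c, hc, hlow⟩ := ZRI.speed_below (d := d) hd hg hφ
  refine ⟨φ, hφ, hφρ, c, ZRI.kap φ Γm Γp + 2, hc, by linarith [ZRI.kap_pos hg hφ], ?_, ?_⟩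
  · obtain ⟨P, r, al, hP, hr, ha, hal⟩ := ZRI.exists_alive (d := d) (by omega) hg hφ
    refine ⟨P, r, al, hP, hr, ha, hal, ?_⟩
    obtain ⟨h1, h2, h3, -, -⟩ := ZRI.m1_sum hg hφ
    have h4 : ∑ n ∈ Finset.range 2, ZRI.m1 g φ n ≤ ∑' n, ZRI.m1 g φ n :=
      h1.sum_le_tsum _ (fun n _ => (h3 n).le)
    rw [h2, Finset.sum_range_succ, Finset.sum_range_one] at h4
    linarith [h3 1]
  · intro Ω _ P _ r al h ha
    filter_upwards [hlow P r al h ha, ZRI.speed_above (d := d) (by omega) hg hφ 0 P r h]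
      with ω h1 h2 h3
    filter_upwards [h1 h3, h2] with t h4 h5
    exact ⟨h4, h5⟩

end Pool.Agent.Results.MP_ee2e20_pr.LinearSpeed
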