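import Pool.Agent.ZRI.FinZ
import Pool.Agent.ZRI.F6
import Pool.Agent.ZRI.F7
import Pool.Agent.ZRI.G1
import Pool.Agent.ZRI.G2

/-!
# The infection front in a zero-range environment moves at most linearly fast

For every dimension, rate function, density and healing rate `δ ∈ [0, ∞]`.
-/

open scoped ENNReal Topology
open MeasureTheory Filter

namespace Pool.Agent.Results.MP_ee2e20_pr.SpeedFromAbove

/-- the density determines the fugacity, so the fugacity in `result` is the only possible one -/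
theorem fugacity_unique {g : ℕ → ℝ} {Γm Γp : ℝ} (hg : ZRI.IsRate g Γm Γp) {φ φ' : ℝ} (hφ : 0 < φ)
    (hφ' : 0 < φ') (h : ZRI.dens g φ = ZRI.dens g φ') : φ = φ' :=
  (ZRI.dens_strictMono hg).injOn hφ hφ' h

/-- Let `d ≥ 1`, let `g` be admissible and let `ρ > 0` be a density, `φ` its fugacity. There is
`C < ∞` such that for every healing rate `δ ∈ [0, ∞]` the position `r t` of the front satisfies
`r t ≤ C t` for all large `t`, almost surely; and such a front exists. -/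
theorem result (d : ℕ) (hd : 1 ≤ d) (g : ℕ → ℝ) (Γm Γp : ℝ) (hg : ZRI.IsRate g Γm Γp) (ρ : ℝ)
    (hρ : 0 < ρ) :
    ∃ φ : ℝ, 0 < φ ∧ ZRI.dens g φ = ρ ∧ ∃ C : ℝ, 0 < C ∧ ∀ δ : ℝ≥0∞,
      (∃ (P : Measure ℝ) (r : ℝ → ℝ → ℕ), IsProbabilityMeasure P ∧ ZRI.Front P d g φ δ r) ∧
      ∀ {Ω : Type*} [MeasurableSpace Ω] (P : Measure Ω) [IsProbabilityMeasure P] (r : ℝ → Ω → ℕ),
        ZRI.Front P d g φ δ r → ∀ᵐ ω ∂P, ∀ᶠ t : ℝ in atTop, (r t ω : ℝ) ≤ C * t := by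
  obtain ⟨φ, hφ, hφρ⟩ := ZRI.exists_fug hg hρ
  refine ⟨φ, hφ, hφρ, ZRI.kap φ Γm Γp + 2, by linarith [ZRI.kap_pos hg hφ], fun δ => ⟨?_, ?_⟩⟩
  · exact ZRI.exists_front hd hg hφ δ
  · intro Ω _ P _ r h
    exact ZRI.speed_above hd hg hφ δ P r h

end Pool.Agent.Results.MP_ee2e20_pr.SpeedFromAbove
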